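import Pool.Agent.Q293.Lonely

/-!
# The probability of a lonely random walker is not monotone in time

For 64 walkers on the line, the probability that some walker is alone at its site is
`0.6136...` after 6 steps and `0.6092...` after 7 steps. The numbers of configurations without a
lonely walker are evaluated exactly by inclusion-exclusion over the sites.
-/

set_option autoImplicit false

namespace Pool.Agent.Results.MP_ca7dc8_pr.NotMonotone

/-- The unit vector `e_i` (for `s = (i, true)`) or `-e_i` (for `s = (i, false)`) of `ℤ^d`. -/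
def step {d : ℕ} (s : Fin d × Bool) : Fin d → ℤ := Pi.single s.1 (if s.2 then 1 else -1)

/-- The position after `t` steps of the walker started at `0` whose steps are given by `u`. -/
def pos {d t : ℕ} (u : Fin t → Fin d × Bool) : Fin d → ℤ := ∑ s, step (u s)

/-- Walker `i` is lonely: no other walker is at the same site. -/
def Lonely {d t n : ℕ} (ω : Fin n → Fin t → Fin d × Bool) (i : Fin n) : Prop :=
  ∀ j, j ≠ i → pos (ω j) ≠ pos (ω i)

/-- The probability that at least one of `n` independent simple random walkers on `ℤ^d`, all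
started at `0`, is lonely at time `t`: the proportion, among all choices of the `t` steps of the
`n` walkers, of those for which some walker is lonely. -/
noncomputable def p (n d t : ℕ) : ℚ :=
  (Nat.card {ω : Fin n → Fin t → Fin d × Bool // ∃ i, Lonely ω i} : ℚ)
    / (Nat.card (Fin n → Fin t → Fin d × Bool) : ℚ)

section Helpers

open Q293.Lonely

/-- the position on the line -/
def X (t : ℕ) (u : Fin t → Fin 1 × Bool) : ℤ := pos u 0

lemma pos_eq_iff {t : ℕ} (u v : Fin t → Fin 1 × Bool) : pos u = pos v ↔ X t u = X t v := by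
  unfold X
  constructor
  · intro h; rw [h]
  · intro h; funext i; rw [Subsingleton.elim i 0]; exact h

/-- sites and numbers of paths at time 6 -/
def L6 : List (ℤ × ℕ) := [(-6,1),(-4,6),(-2,15),(0,20),(2,15),(4,6),(6,1)]
/-- sites and numbers of paths at time 7 -/
def L7 : List (ℤ × ℕ) := [(-7,1),(-5,7),(-3,21),(-1,35),(1,35),(3,21),(5,7),(7,1)]

theorem e67 : E (L6.map Prod.snd) 64 64 * 2 ^ 64 < E (L7.map Prod.snd) 64 128 := by
  decide +kernel
theorem c6 : ∀ p ∈ L6, (Finset.univ.filter (fun u => X 6 u = p.1)).card = p.2 := by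
  decide +kernel
theorem c7 : ∀ p ∈ L7, (Finset.univ.filter (fun u => X 7 u = p.1)).card = p.2 := by
  decide +kernel
theorem k6 : ∀ u, X 6 u ∈ L6.map Prod.fst := by
  decide +kernel
theorem k7 : ∀ u, X 7 u ∈ L7.map Prod.fst := by
  decide +kernel

lemma lonely_iff {t n : ℕ} (ω : Fin n → Fin t → Fin 1 × Bool) (K : Finset ℤ)
    (hK : ∀ u, X t u ∈ K) :
    (∃ i, Lonely ω i) ↔ ¬ ∀ k ∈ K, occ (X t) ω k ≠ 1 := by
  push Not
  constructor
  · rintro ⟨i, hi⟩
    refine ⟨X t (ω i), hK _, ?_⟩
    unfold occ
    rw [Finset.card_eq_one]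
    refine ⟨i, ?_⟩
    ext j
    simp only [Finset.mem_filter, Finset.mem_univ, true_and, Finset.mem_singleton]
    constructor
    · intro h
      by_contra hne
      exact hi j hne ((pos_eq_iff _ _).2 h)
    · rintro rfl; rfl
  · rintro ⟨k, _, hk⟩
    unfold occ at hk
    rw [Finset.card_eq_one] at hk
    obtain ⟨i, hi⟩ := hk
    have hik : X t (ω i) = k := by
      have : i ∈ Finset.univ.filter (fun j => X t (ω j) = k) := by rw [hi]; simp
      simpa using this
    refine ⟨i, fun j hj h => ?_⟩
    have : j ∈ Finset.univ.filter (fun j => X t (ω j) = k) := by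
      simp only [Finset.mem_filter, Finset.mem_univ, true_and]
      rw [(pos_eq_iff _ _).1 h, hik]
    rw [hi, Finset.mem_singleton] at this
    exact hj this

lemma p_eq {t n : ℕ} (L : List (ℤ × ℕ)) (hn : L.length ≤ n) (hnd : (L.map Prod.fst).Nodup)
    (hc : ∀ p ∈ L, (Finset.univ.filter (fun u => X t u = p.1)).card = p.2)
    (hK : ∀ u, X t u ∈ L.map Prod.fst) :
    p n 1 t = 1 - (E (L.map Prod.snd) n (2 ^ t) : ℚ) / ((2 ^ t) ^ n : ℕ) := by
  classical
  have hE := card_conf (X t) L n Finset.univ hn hnd hc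
  have hcard : (Finset.univ : Finset (Fin t → Fin 1 × Bool)).card = 2 ^ t := by
    rw [Finset.card_univ]; simp
  rw [hcard] at hE
  have htot : Nat.card (Fin n → Fin t → Fin 1 × Bool) = (2 ^ t) ^ n := by
    rw [Nat.card_eq_fintype_card]; simp
  have hsum : Nat.card {ω : Fin n → Fin t → Fin 1 × Bool // ∃ i, Lonely ω i}
      + (conf (X t) (L.map Prod.fst).toFinset n Finset.univ).card = (2 ^ t) ^ n := by
    rw [← htot, Nat.card_eq_fintype_card, Nat.card_eq_fintype_card, Fintype.card_subtype,
      ← Finset.card_univ (α := Fin n → Fin t → Fin 1 × Bool),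
      ← Finset.card_filter_add_card_filter_not (s := Finset.univ) (fun ω => ∃ i, Lonely ω i)]
    congr 2
    ext ω
    simp only [mem_conf, Finset.mem_univ, implies_true, true_and, Finset.mem_filter]
    rw [lonely_iff ω (L.map Prod.fst).toFinset (fun u => by rw [List.mem_toFinset]; exact hK u),
      not_not]
  have h1 : (Nat.card {ω : Fin n → Fin t → Fin 1 × Bool // ∃ i, Lonely ω i} : ℚ)
      = ((2 ^ t) ^ n : ℕ) - (E (L.map Prod.snd) n (2 ^ t) : ℚ) := by
    rw [← hE, ← hsum]
    push_cast
    ring
  unfold p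
  rw [h1, htot, sub_div, div_self]
  exact_mod_cast (by positivity : (2 ^ t) ^ n ≠ 0)

end Helpers

/-- The probability that some walker is lonely is not monotone in time: for 64 walkers on the line,
it is smaller at time 7 than at time 6. -/
theorem result : p 64 1 7 < p 64 1 6 ∧
    ¬ ∀ d : ℕ, 1 ≤ d → ∀ n : ℕ, 1 ≤ n → ∀ t : ℕ, p n d t ≤ p n d (t + 1) := by
  have h : p 64 1 7 < p 64 1 6 := by
    rw [p_eq L7 (by decide) (by decide) c7 k7, p_eq L6 (by decide) (by decide) c6 k6]
    have h2 := e67
    have h3 : ((Q293.Lonely.E (L6.map Prod.snd) 64 (2 ^ 6) : ℤ) : ℚ) * 2 ^ 64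
        < (Q293.Lonely.E (L7.map Prod.snd) 64 (2 ^ 7) : ℤ) := by
      exact_mod_cast h2
    apply sub_lt_sub_left
    rw [div_lt_div_iff₀ (by positivity) (by positivity)]
    have h4 : (((2 ^ 7) ^ 64 : ℕ) : ℚ) = 2 ^ 64 * ((2 ^ 6) ^ 64 : ℕ) := by norm_num
    rw [h4, ← mul_assoc]
    exact mul_lt_mul_of_pos_right h3 (by positivity)
  exact ⟨h, fun hall => absurd (hall 1 le_rfl 64 (by norm_num) 6) (not_le.2 h)⟩

end Pool.Agent.Results.MP_ca7dc8_pr.NotMonotone
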